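import Mathlib

/-!
# The dissociativity dimension of `m`-subsets of cyclic groups: a counterexample
-/

namespace Pool.Agent.Results.MP_fd91d0_co.Counterexample

/-- `B` is dissociated: no relation `∑ l_b b = 0` with all `l_b ∈ {-1,0,1}`, not all zero. -/
def Dissociated {G : Type*} [AddCommGroup G] (B : Finset G) : Prop :=
  ∀ l : G → ℤ, (∀ b ∈ B, l b = -1 ∨ l b = 0 ∨ l b = 1) → ∑ b ∈ B, l b • b = 0 → ∀ b ∈ B, l b = 0

/-- `dim A`: the maximal size of a dissociated subset of `A`. -/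
noncomputable def dim {G : Type*} [AddCommGroup G] (A : Finset G) : ℕ :=
  sSup {k : ℕ | ∃ B : Finset G, B ⊆ A ∧ Dissociated B ∧ B.card = k}

/-- `dim(G, m)`: the minimum of `dim A` over the `m`-element subsets `A` of `G`. -/
noncomputable def dimMin (G : Type*) [AddCommGroup G] (m : ℕ) : ℕ :=
  sInf {k : ℕ | ∃ A : Finset G, A.card = m ∧ dim A = k}

theorem le_four {B : Finset (ZMod 17)} (hB : Dissociated B) : B.card ≤ 4 := by
  classical
  by_contra hcon
  push Not at hcon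
  have hinj : Set.InjOn (fun S : Finset (ZMod 17) => ∑ x ∈ S, x) (B.powerset : Set (Finset (ZMod 17))) := by
    intro S hS T hT hST
    rw [Finset.mem_coe, Finset.mem_powerset] at hS hT
    have hST' : ∑ x ∈ S, x = ∑ x ∈ T, x := hST
    set l : ZMod 17 → ℤ := fun x => (if x ∈ S then 1 else 0) - (if x ∈ T then 1 else 0) with hl
    have h1 : ∀ b ∈ B, l b = -1 ∨ l b = 0 ∨ l b = 1 := by
      intro b _
      simp only [hl]
      split_ifs <;> simp
    have h2 : ∑ b ∈ B, l b • b = 0 := by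
      have e1 : ∀ U ⊆ B, ∑ b ∈ B, (if b ∈ U then (1 : ℤ) else 0) • b = ∑ b ∈ U, b := by
        intro U hU
        rw [← Finset.sum_subset hU]
        · apply Finset.sum_congr rfl
          intro x hx
          rw [if_pos hx, one_smul]
        · intro x _ hx
          rw [if_neg hx, zero_smul]
      simp only [hl, sub_smul]
      rw [Finset.sum_sub_distrib, e1 S hS, e1 T hT, hST', sub_self]
    have h3 := hB l h1 h2
    ext x
    by_cases hx : x ∈ B
    · have := h3 x hx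
      simp only [hl] at this
      split_ifs at this with a b b
      · exact ⟨fun _ => b, fun _ => a⟩
      · omega
      · omega
      · exact ⟨fun h => absurd h a, fun h => absurd h b⟩
    · exact ⟨fun h => absurd (hS h) hx, fun h => absurd (hT h) hx⟩
  have h4 := Finset.card_le_card_of_injOn (s := B.powerset) (t := Finset.univ)
    (fun S : Finset (ZMod 17) => ∑ x ∈ S, x) (fun _ _ => Finset.mem_univ _) hinj
  rw [Finset.card_powerset, Finset.card_univ, ZMod.card] at h4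
  have h5 : 2 ^ 5 ≤ 2 ^ B.card := Nat.pow_le_pow_right (by norm_num) hcon
  omega

theorem sizes_bdd (A : Finset (ZMod 17)) :
    BddAbove {k : ℕ | ∃ B : Finset (ZMod 17), B ⊆ A ∧ Dissociated B ∧ B.card = k} := by
  refine ⟨4, ?_⟩
  rintro k ⟨B, _, hB, rfl⟩
  exact le_four hB

/-- signed dilates of `{1,2,4,8}` are dissociated mod `17`. -/
theorem signed_dilate (c : ZMod 17) (hc : c ≠ 0) (s₁ s₂ s₃ s₄ : ℤ)
    (h₁ : s₁ = 1 ∨ s₁ = -1) (h₂ : s₂ = 1 ∨ s₂ = -1) (h₃ : s₃ = 1 ∨ s₃ = -1) (h₄ : s₄ = 1 ∨ s₄ = -1) :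
    ∃ B : Finset (ZMod 17), B = {((s₁ : ℤ) : ZMod 17) * c, ((2 * s₂ : ℤ) : ZMod 17) * c,
      ((4 * s₃ : ℤ) : ZMod 17) * c, ((8 * s₄ : ℤ) : ZMod 17) * c} ∧ Dissociated B ∧ B.card = 4 := by
  have : Fact (Nat.Prime 17) := ⟨by norm_num⟩
  have inj : ∀ a b : ℤ, (a : ZMod 17) * c = (b : ZMod 17) * c → (17 : ℤ) ∣ b - a := by
    intro a b h
    have := mul_right_cancel₀ hc h
    rw [ZMod.intCast_eq_intCast_iff_dvd_sub] at this
    exact_mod_cast this
  have n12 : ((s₁ : ℤ) : ZMod 17) * c ≠ ((2 * s₂ : ℤ) : ZMod 17) * c := by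
    intro h; have := inj _ _ h; omega
  have n13 : ((s₁ : ℤ) : ZMod 17) * c ≠ ((4 * s₃ : ℤ) : ZMod 17) * c := by
    intro h; have := inj _ _ h; omega
  have n14 : ((s₁ : ℤ) : ZMod 17) * c ≠ ((8 * s₄ : ℤ) : ZMod 17) * c := by
    intro h; have := inj _ _ h; omega
  have n23 : ((2 * s₂ : ℤ) : ZMod 17) * c ≠ ((4 * s₃ : ℤ) : ZMod 17) * c := by
    intro h; have := inj _ _ h; omega
  have n24 : ((2 * s₂ : ℤ) : ZMod 17) * c ≠ ((8 * s₄ : ℤ) : ZMod 17) * c := by
    intro h; have := inj _ _ h; omega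
  have n34 : ((4 * s₃ : ℤ) : ZMod 17) * c ≠ ((8 * s₄ : ℤ) : ZMod 17) * c := by
    intro h; have := inj _ _ h; omega
  have k1 : ((s₁ : ℤ) : ZMod 17) * c ∉ ({((2 * s₂ : ℤ) : ZMod 17) * c,
      ((4 * s₃ : ℤ) : ZMod 17) * c, ((8 * s₄ : ℤ) : ZMod 17) * c} : Finset (ZMod 17)) := by
    simp only [Finset.mem_insert, Finset.mem_singleton]
    rintro (h | h | h)
    · exact n12 h
    · exact n13 h
    · exact n14 h
  have k2 : ((2 * s₂ : ℤ) : ZMod 17) * c ∉ ({((4 * s₃ : ℤ) : ZMod 17) * c,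
      ((8 * s₄ : ℤ) : ZMod 17) * c} : Finset (ZMod 17)) := by
    simp only [Finset.mem_insert, Finset.mem_singleton]
    rintro (h | h)
    · exact n23 h
    · exact n24 h
  have k3 : ((4 * s₃ : ℤ) : ZMod 17) * c ∉ ({((8 * s₄ : ℤ) : ZMod 17) * c} : Finset (ZMod 17)) := by
    simp only [Finset.mem_singleton]
    exact n34
  refine ⟨_, rfl, ?_, ?_⟩
  · intro l hl hs
    rw [Finset.sum_insert k1, Finset.sum_insert k2, Finset.sum_insert k3, Finset.sum_singleton] at hs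
    have m1 := hl _ (Finset.mem_insert_self _ _)
    have m2 := hl _ (Finset.mem_insert_of_mem (Finset.mem_insert_self _ _))
    have m3 := hl _ (Finset.mem_insert_of_mem (Finset.mem_insert_of_mem (Finset.mem_insert_self _ _)))
    have m4 := hl _ (Finset.mem_insert_of_mem (Finset.mem_insert_of_mem
      (Finset.mem_insert_of_mem (Finset.mem_singleton_self _))))
    set a := l (((s₁ : ℤ) : ZMod 17) * c)
    set b := l (((2 * s₂ : ℤ) : ZMod 17) * c)
    set d := l (((4 * s₃ : ℤ) : ZMod 17) * c)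
    set e := l (((8 * s₄ : ℤ) : ZMod 17) * c)
    have hz : ((a * s₁ + b * (2 * s₂) + d * (4 * s₃) + e * (8 * s₄) : ℤ) : ZMod 17) * c
        = ((0 : ℤ) : ZMod 17) * c := by
      simp only [zsmul_eq_mul] at hs
      push_cast at hs ⊢
      linear_combination hs
    have hdvd := inj _ _ hz
    have hall : a = 0 ∧ b = 0 ∧ d = 0 ∧ e = 0 := by
      rcases h₁ with rfl | rfl <;> rcases h₂ with rfl | rfl <;> rcases h₃ with rfl | rfl <;>
        rcases h₄ with rfl | rfl <;> omega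
    intro x hx
    simp only [Finset.mem_insert, Finset.mem_singleton] at hx
    rcases hx with rfl | rfl | rfl | rfl
    · exact hall.1
    · exact hall.2.1
    · exact hall.2.2.1
    · exact hall.2.2.2
  · rw [Finset.card_insert_of_notMem k1, Finset.card_insert_of_notMem k2,
      Finset.card_insert_of_notMem k3, Finset.card_singleton]

theorem four_distinct : ∀ x ∈ ({1, 2, 4, 8} : Finset (ZMod 17)), ∀ y ∈ ({1, 2, 4, 8} : Finset (ZMod 17)),
    ({x * 1, -(x * 1), y * 3, -(y * 3)} : Finset (ZMod 17)).card = 4 := by decide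

theorem one_ne : (1 : ZMod 17) ≠ 0 := by decide
theorem three_ne : (3 : ZMod 17) ≠ 0 := by decide
theorem mem1 : (1 : ZMod 17) ∈ ({1, 2, 4, 8} : Finset (ZMod 17)) := by decide
theorem mem2 : (2 : ZMod 17) ∈ ({1, 2, 4, 8} : Finset (ZMod 17)) := by decide
theorem mem4 : (4 : ZMod 17) ∈ ({1, 2, 4, 8} : Finset (ZMod 17)) := by decide
theorem mem8 : (8 : ZMod 17) ∈ ({1, 2, 4, 8} : Finset (ZMod 17)) := by decide

theorem exists_four {A : Finset (ZMod 17)} (hA : 14 ≤ A.card) :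
    ∃ B ⊆ A, Dissociated B ∧ B.card = 4 := by
  have hcompl : Aᶜ.card ≤ 3 := by
    rw [Finset.card_compl, ZMod.card]; omega
  have good : ∃ c : ZMod 17, c ≠ 0 ∧ ∀ t ∈ ({1, 2, 4, 8} : Finset (ZMod 17)), t * c ∈ A ∨ -(t * c) ∈ A := by
    by_contra hcon
    push Not at hcon
    obtain ⟨x, hx, hx1, hx2⟩ := hcon 1 one_ne
    obtain ⟨y, hy, hy1, hy2⟩ := hcon 3 three_ne
    have hsub : ({x * 1, -(x * 1), y * 3, -(y * 3)} : Finset (ZMod 17)) ⊆ Aᶜ := by
      intro z hz
      simp only [Finset.mem_insert, Finset.mem_singleton] at hz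
      rw [Finset.mem_compl]
      rcases hz with rfl | rfl | rfl | rfl <;> assumption
    have hc := Finset.card_le_card hsub
    rw [four_distinct x hx y hy] at hc
    omega
  obtain ⟨c, hc, hgood⟩ := good
  have pick : ∀ t : ℤ, (t : ZMod 17) * c ∈ A ∨ -((t : ZMod 17) * c) ∈ A →
      ∃ s : ℤ, (s = 1 ∨ s = -1) ∧ ((t * s : ℤ) : ZMod 17) * c ∈ A := by
    intro t ht
    rcases ht with ht | ht
    · exact ⟨1, Or.inl rfl, by rw [mul_one]; exact ht⟩
    · exact ⟨-1, Or.inr rfl, by push_cast; rw [mul_neg, mul_one, neg_mul]; exact ht⟩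
  obtain ⟨s₁, h₁, m₁⟩ := pick 1 (by have := hgood 1 mem1; push_cast; exact this)
  obtain ⟨s₂, h₂, m₂⟩ := pick 2 (by have := hgood 2 mem2; push_cast; exact this)
  obtain ⟨s₃, h₃, m₃⟩ := pick 4 (by have := hgood 4 mem4; push_cast; exact this)
  obtain ⟨s₄, h₄, m₄⟩ := pick 8 (by have := hgood 8 mem8; push_cast; exact this)
  rw [one_mul] at m₁
  obtain ⟨B, hB, hB1, hB2⟩ := signed_dilate c hc s₁ s₂ s₃ s₄ h₁ h₂ h₃ h₄
  refine ⟨B, ?_, hB1, hB2⟩
  rw [hB]
  intro z hz
  simp only [Finset.mem_insert, Finset.mem_singleton] at hz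
  rcases hz with rfl | rfl | rfl | rfl <;> assumption

theorem dim_eq {A : Finset (ZMod 17)} (hA : 14 ≤ A.card) : dim A = 4 := by
  obtain ⟨B, hBA, hB, hc⟩ := exists_four hA
  apply le_antisymm
  · refine csSup_le ⟨B.card, B, hBA, hB, rfl⟩ ?_
    rintro k ⟨C, _, hC, rfl⟩
    exact le_four hC
  · exact le_csSup (sizes_bdd A) ⟨B, hBA, hB, hc⟩

theorem dimMin_eq (m : ℕ) (h1 : 14 ≤ m) (h2 : m ≤ 17) : dimMin (ZMod 17) m = 4 := by
  have hset : {k : ℕ | ∃ A : Finset (ZMod 17), A.card = m ∧ dim A = k} = {4} := by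
    ext k
    rw [Set.mem_setOf_eq, Set.mem_singleton_iff]
    constructor
    · rintro ⟨A, hA, rfl⟩
      exact dim_eq (by omega)
    · rintro rfl
      obtain ⟨A, _, hA⟩ := Finset.exists_subset_card_eq
        (show m ≤ (Finset.univ : Finset (ZMod 17)).card by rw [Finset.card_univ, ZMod.card]; exact h2)
      exact ⟨A, hA, dim_eq (by omega)⟩
  unfold dimMin
  rw [hset, csInf_singleton]

/-- `dim(ℤ₁₇, 14) = dim(ℤ₁₇, 15) = 4`, while `⌊log₂ 14⌋ = ⌊log₂ 15⌋ = 3`; so the equality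
`dim(ℤ_n, m) = ⌊log₂ m⌋` fails for some `1 ≤ m ≤ n`. -/
theorem result : (dimMin (ZMod 17) 14 = 4 ∧ dimMin (ZMod 17) 15 = 4) ∧
    ¬ ∀ n m : ℕ, 0 < n → 1 ≤ m → m ≤ n → dimMin (ZMod n) m = Nat.log 2 m := by
  refine ⟨⟨dimMin_eq 14 (by norm_num) (by norm_num), dimMin_eq 15 (by norm_num) (by norm_num)⟩, ?_⟩
  intro h
  have h1 := h 17 14 (by norm_num) (by norm_num) (by norm_num)
  rw [dimMin_eq 14 (by norm_num) (by norm_num)] at h1
  have h2 : Nat.log 2 14 = 3 := by
    rw [Nat.log_eq_iff (by norm_num)]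
    norm_num
  omega

end Pool.Agent.Results.MP_fd91d0_co.Counterexample
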